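import Mathlib

/-!
# MP_a8e883_al: second power of closed neighborhood ideals of Kneser graphs
-/

namespace Pool.Agent.Results.MP_a8e883_al.KneserSquare

open Finset MvPolynomial

/-- The closed neighbourhood `N_G[i]`. -/
noncomputable def closedNbhd {V : Type*} [Fintype V] (G : SimpleGraph V) (i : V) : Finset V := by
  classical exact univ.filter (fun j => j = i ∨ G.Adj i j)

/-- The closed neighbourhood ideal `NI(G) = (x_{N_G[i]} : i ∈ V)` in `K[x_v : v ∈ V]`. -/
noncomputable def NI (K : Type*) [Field K] {V : Type*} [Fintype V] (G : SimpleGraph V) :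
    Ideal (MvPolynomial V K) :=
  Ideal.span (Set.range fun i => ∏ j ∈ closedNbhd G i, (X j : MvPolynomial V K))

/-- The maximal homogeneous ideal `(x_v : v ∈ V)`. -/
noncomputable def maxIdeal (K : Type*) [Field K] (V : Type*) : Ideal (MvPolynomial V K) :=
  Ideal.span (Set.range fun v => (X v : MvPolynomial V K))

/-- `P` is an associated prime of `S/I`: `P` is prime and `P = {a : a f ∈ I}` for some `f`. -/
def IsAssocPrime {S : Type*} [CommRing S] (P I : Ideal S) : Prop :=
  P.IsPrime ∧ ∃ f : S, ∀ a : S, a ∈ P ↔ a * f ∈ I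

/-- The Kneser graph `K(n,k)`: vertices are the `k`-subsets of `{1,…,n}` (here `Fin n`), two
(distinct) vertices are adjacent when disjoint. -/
def kneser (n k : ℕ) : SimpleGraph {s : Finset (Fin n) // s.card = k} where
  Adj s t := s ≠ t ∧ Disjoint s.1 t.1
  symm := ⟨fun _ _ h => ⟨h.1.symm, h.2.symm⟩⟩
  loopless := ⟨fun _ h => h.1 rfl⟩

/-! ### Reduction to monomials -/

section

variable {K : Type*} [Field K] {V : Type*} [Fintype V]

lemma mem_closedNbhd {G : SimpleGraph V} {i j : V} : j ∈ closedNbhd G i ↔ j = i ∨ G.Adj i j := by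
  simp [closedNbhd]

noncomputable def nb (G : SimpleGraph V) (i : V) : V →₀ ℕ :=
  ∑ j ∈ closedNbhd G i, Finsupp.single j 1

lemma nb_mem {G : SimpleGraph V} {i w : V} (h : w ∈ closedNbhd G i) : nb G i w = 1 := by
  classical
  simp [nb, Finsupp.finsetSum_apply, Finsupp.single_apply, h]

lemma nb_notMem {G : SimpleGraph V} {i w : V} (h : w ∉ closedNbhd G i) : nb G i w = 0 := by
  classical
  simp [nb, Finsupp.finsetSum_apply, Finsupp.single_apply, h]

lemma nb_le_one (G : SimpleGraph V) (i w : V) : nb G i w ≤ 1 := by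
  by_cases h : w ∈ closedNbhd G i
  · rw [nb_mem h]
  · rw [nb_notMem h]; norm_num

lemma gen_eq (G : SimpleGraph V) (i : V) :
    ∏ j ∈ closedNbhd G i, (X j : MvPolynomial V K) = monomial (nb G i) 1 := by
  rw [nb, monomial_sum_one]
  rfl

lemma NI_sq (G : SimpleGraph V) :
    NI K G ^ 2 = Ideal.span ((fun s => monomial s (1 : K)) ''
      {m | ∃ i j, m = nb G i + nb G j}) := by
  rw [sq, NI, Ideal.span_mul_span']
  congr 1
  ext p
  constructor
  · rintro ⟨a, ⟨i, rfl⟩, b, ⟨j, rfl⟩, rfl⟩
    refine ⟨nb G i + nb G j, ⟨i, j, rfl⟩, ?_⟩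
    simp only [gen_eq]
    rw [monomial_mul, one_mul]
  · rintro ⟨m, ⟨i, j, rfl⟩, rfl⟩
    refine ⟨_, ⟨i, rfl⟩, _, ⟨j, rfl⟩, ?_⟩
    simp only [gen_eq]
    rw [monomial_mul, one_mul]

lemma mem_NI_sq (G : SimpleGraph V) (p : MvPolynomial V K) :
    p ∈ NI K G ^ 2 ↔ ∀ m ∈ p.support, ∃ i j, nb G i + nb G j ≤ m := by
  rw [NI_sq, mem_ideal_span_monomial_image]
  constructor
  · intro h m hm
    obtain ⟨_, ⟨i, j, rfl⟩, h2⟩ := h m hm
    exact ⟨i, j, h2⟩
  · intro h m hm
    obtain ⟨i, j, h2⟩ := h m hm
    exact ⟨_, ⟨i, j, rfl⟩, h2⟩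

/-- The combinatorial witness. -/
def Witness (G : SimpleGraph V) (f : V →₀ ℕ) : Prop :=
  (∀ i j, ¬ nb G i + nb G j ≤ f) ∧ ∀ v, ∃ i j, nb G i + nb G j ≤ f + Finsupp.single v 1

lemma mem_maxIdeal (a : MvPolynomial V K) : a ∈ maxIdeal K V ↔ coeff 0 a = 0 := by
  rw [maxIdeal, ← Set.image_univ, mem_ideal_span_X_image]
  constructor
  · intro h
    by_contra hne
    obtain ⟨i, _, hi⟩ := h 0 (mem_support_iff.2 hne)
    simp at hi
  · intro h m hm
    by_contra hcon
    push Not at hcon
    have : m = 0 := by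
      ext i
      exact hcon i (Set.mem_univ _)
    rw [this, mem_support_iff] at hm
    exact hm h

lemma maxIdeal_prime : (maxIdeal K V).IsPrime := by
  have : maxIdeal K V = RingHom.ker (constantCoeff : MvPolynomial V K →+* K) := by
    ext a
    rw [mem_maxIdeal, RingHom.mem_ker]
    rfl
  rw [this]
  exact RingHom.ker_isPrime _

lemma assoc_iff (G : SimpleGraph V) :
    IsAssocPrime (maxIdeal K V) (NI K G ^ 2) ↔ ∃ f, Witness G f := by
  classical
  constructor
  · rintro ⟨hP, g, hg⟩
    have h1 : (1 : MvPolynomial V K) ∉ maxIdeal K V := by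
      rw [mem_maxIdeal]; simp
    rw [hg, one_mul, mem_NI_sq] at h1
    push Not at h1
    obtain ⟨f, hf, hf2⟩ := h1
    refine ⟨f, hf2, ?_⟩
    intro v
    have h2 : (X v : MvPolynomial V K) ∈ maxIdeal K V := Ideal.subset_span ⟨v, rfl⟩
    rw [hg, mem_NI_sq] at h2
    apply h2
    rw [mem_support_iff, add_comm, coeff_X_mul]
    exact mem_support_iff.1 hf
  · rintro ⟨f, hf1, hf2⟩
    refine ⟨maxIdeal_prime, monomial f 1, ?_⟩
    intro a
    constructor
    · intro ha
      rw [maxIdeal] at ha
      have key : maxIdeal K V ≤ Submodule.colon (NI K G ^ 2) {monomial f (1 : K)} := by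
        rw [maxIdeal, Ideal.span_le]
        rintro _ ⟨v, rfl⟩
        simp only [SetLike.mem_coe, Submodule.mem_colon_singleton, smul_eq_mul]
        rw [mem_NI_sq]
        intro m hm
        have : (X v : MvPolynomial V K) * monomial f 1 = monomial (f + Finsupp.single v 1) 1 := by
          rw [X, monomial_mul, one_mul, add_comm]
        rw [this, mem_support_iff, coeff_monomial] at hm
        have hm' : f + Finsupp.single v 1 = m := by
          by_contra hne
          rw [if_neg hne] at hm
          exact hm rfl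
        rw [← hm']
        exact hf2 v
      have := key ha
      simpa only [Submodule.mem_colon_singleton, smul_eq_mul] using this
    · intro ha
      rw [mem_maxIdeal]
      by_contra hne
      rw [mem_NI_sq] at ha
      obtain ⟨i, j, hij⟩ := ha f (by
        rw [mem_support_iff]
        have := coeff_mul_monomial (0 : V →₀ ℕ) f (1 : K) a
        rw [zero_add, mul_one] at this
        rw [this]
        exact hne)
      exact hf1 i j hij

end

/-! ### General consequences of a witness -/

section

variable {V : Type*} [Fintype V] {G : SimpleGraph V} {f : V →₀ ℕ}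

lemma w_step (h : Witness G f) (v : V) : ∃ i j, (nb G i v + nb G j v = f v + 1) ∧
    ∀ w, w ≠ v → nb G i w + nb G j w ≤ f w := by
  classical
  obtain ⟨i, j, hij⟩ := h.2 v
  have h2 : ∀ w, w ≠ v → nb G i w + nb G j w ≤ f w := by
    intro w hw
    have := hij w
    simpa [Finsupp.single_apply, Ne.symm hw] using this
  refine ⟨i, j, ?_, h2⟩
  have h3 : nb G i v + nb G j v ≤ f v + 1 := by
    have := hij v
    simpa using this
  by_contra hne
  apply h.1 i j
  intro w
  by_cases hw : w = v
  · subst hw
    simp only [Finsupp.coe_add, Pi.add_apply]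
    omega
  · exact h2 w hw

lemma w_le_one (h : Witness G f) (v : V) : f v ≤ 1 := by
  obtain ⟨i, j, h1, _⟩ := w_step h v
  have := nb_le_one G i v
  have := nb_le_one G j v
  omega

/-- `InA f a` says that the whole closed neighbourhood of `a` lies in the support of `f`. -/
def InA (G : SimpleGraph V) (f : V →₀ ℕ) (a : V) : Prop := nb G a ≤ f

lemma w_meet (h : Witness G f) {a b : V} (ha : InA G f a) (hb : InA G f b) :
    ∃ w, w ∈ closedNbhd G a ∧ w ∈ closedNbhd G b := by
  by_contra hcon
  push Not at hcon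
  apply h.1 a b
  intro w
  have h1 := ha w
  have h2 := hb w
  simp only [Finsupp.coe_add, Pi.add_apply]
  by_cases hw : w ∈ closedNbhd G a
  · rw [nb_notMem (hcon w hw)]
    omega
  · rw [nb_notMem hw]
    omega

lemma w_unique (h : Witness G f) {b : V} (hb : f b = 1) :
    ∃ i j, InA G f i ∧ InA G f j ∧ b ∈ closedNbhd G i ∧ b ∈ closedNbhd G j ∧
      ∀ w, w ∈ closedNbhd G i → w ∈ closedNbhd G j → w = b := by
  obtain ⟨i, j, h1, h2⟩ := w_step h b
  have hi1 := nb_le_one G i b
  have hj1 := nb_le_one G j b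
  have hi : nb G i b = 1 := by omega
  have hj : nb G j b = 1 := by omega
  refine ⟨i, j, ?_, ?_, ?_, ?_, ?_⟩
  · intro w
    by_cases hw : w = b
    · subst hw; omega
    · have := h2 w hw; omega
  · intro w
    by_cases hw : w = b
    · subst hw; omega
    · have := h2 w hw; omega
  · by_contra hn
    rw [nb_notMem hn] at hi; omega
  · by_contra hn
    rw [nb_notMem hn] at hj; omega
  · intro w hwi hwj
    by_contra hw
    have h3 := h2 w hw
    rw [nb_mem hwi, nb_mem hwj] at h3
    have := w_le_one h w
    omega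

lemma w_exists (h : Witness G f) (v : V) : ∃ a, InA G f a := by
  obtain ⟨i, j, h1, h2⟩ := w_step h v
  have hf := w_le_one h v
  have hi1 := nb_le_one G i v
  have hj1 := nb_le_one G j v
  by_cases hv : nb G j v = 0
  · refine ⟨j, ?_⟩
    intro w
    by_cases hw : w = v
    · subst hw; omega
    · have := h2 w hw; omega
  · by_cases hi : nb G i v = 0
    · refine ⟨i, ?_⟩
      intro w
      by_cases hw : w = v
      · subst hw; omega
      · have := h2 w hw; omega
    · refine ⟨i, ?_⟩
      intro w
      by_cases hw : w = v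
      · subst hw; omega
      · have := h2 w hw; omega

lemma w_supp (h : Witness G f) {a b : V} (ha : InA G f a) (hb : b ∈ closedNbhd G a) : f b = 1 := by
  have h1 := ha b
  rw [nb_mem hb] at h1
  have := w_le_one h b
  omega

end

/-! ### Kneser graphs -/

section

variable {n k : ℕ}

abbrev Vtx (n k : ℕ) : Type := {s : Finset (Fin n) // s.card = k}

lemma adj_iff (hk : 1 ≤ k) (s t : Vtx n k) : (kneser n k).Adj s t ↔ Disjoint s.1 t.1 := by
  constructor
  · exact fun h => h.2
  · intro h
    refine ⟨?_, h⟩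
    rintro rfl
    have h1 := s.2
    rw [disjoint_self] at h
    rw [h] at h1
    simp at h1
    omega

/-- A subset of size at least `k` of the complement contains a vertex disjoint from both. -/
lemma exists_common {s t : Vtx n k} (h : k + (s.1 ∪ t.1).card ≤ n) :
    ∃ w : Vtx n k, Disjoint s.1 w.1 ∧ Disjoint t.1 w.1 := by
  have h1 : k ≤ (s.1 ∪ t.1)ᶜ.card := by
    rw [Finset.card_compl, Fintype.card_fin]; omega
  obtain ⟨w, hw, hwc⟩ := Finset.exists_subset_card_eq h1
  refine ⟨⟨w, hwc⟩, ?_, ?_⟩
  · rw [Finset.disjoint_left]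
    intro x hx hxw
    have := hw hxw
    simp at this
    exact this.1 hx
  · rw [Finset.disjoint_left]
    intro x hx hxw
    have := hw hxw
    simp at this
    exact this.2 hx

/-- The two witnesses at `b`, described as sets. -/
lemma kneser_pair (hk : 1 ≤ k) (hn : 2 * k ≤ n) {f : Vtx n k →₀ ℕ}
    (h : Witness (kneser n k) f) {b : Vtx n k} (hb : f b = 1) :
    ∃ X Y : Vtx n k, InA (kneser n k) f X ∧ InA (kneser n k) f Y ∧
      X.1 ∪ Y.1 = b.1ᶜ ∧ ¬ Disjoint X.1 Y.1 ∧ X ≠ Y := by
  obtain ⟨X, Y, hX, hY, hbX, hbY, huniq⟩ := w_unique h hb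
  rw [mem_closedNbhd, adj_iff hk] at hbX hbY
  have hself : ∀ Z : Vtx n k, Z ∈ closedNbhd (kneser n k) Z := fun Z => by
    rw [mem_closedNbhd]; left; rfl
  -- some neighbour of b
  obtain ⟨c, hc, _⟩ : ∃ c : Vtx n k, Disjoint b.1 c.1 ∧ Disjoint b.1 c.1 :=
    exists_common (s := b) (t := b) (by rw [Finset.union_self, b.2]; omega)
  have hcb : c ≠ b := by
    rintro rfl
    exact ((adj_iff hk c c).2 hc).1 rfl
  have hXb : Disjoint X.1 b.1 := by
    rcases hbX with hbX | hbX
    · exfalso
      rcases hbY with hbY | hbY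
      · apply hcb
        apply huniq c
        · rw [mem_closedNbhd, adj_iff hk, ← hbX]; right; exact hc
        · rw [mem_closedNbhd, adj_iff hk, ← hbY]; right; exact hc
      · have h1 : Y = b := huniq Y (by
          rw [mem_closedNbhd, adj_iff hk, ← hbX]; right; exact hbY.symm) (hself Y)
        rw [h1] at hbY
        exact ((adj_iff hk b b).2 hbY).1 rfl
    · exact hbX
  have hYb : Disjoint Y.1 b.1 := by
    rcases hbY with hbY | hbY
    · exfalso
      have h1 : X = b := huniq X (hself X) (by
          rw [mem_closedNbhd, adj_iff hk, ← hbY]; right; exact hXb.symm)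
      rw [h1] at hXb
      exact ((adj_iff hk b b).2 hXb).1 rfl
    · exact hbY
  have hXneb : X ≠ b := by
    rintro rfl
    exact ((adj_iff hk X X).2 hXb).1 rfl
  have hXY : X ≠ Y := by
    rintro rfl
    exact hXneb (huniq X (hself X) (hself X))
  have hnd : ¬ Disjoint X.1 Y.1 := by
    intro hd
    apply hXneb
    apply huniq X (hself X)
    rw [mem_closedNbhd, adj_iff hk]
    right; exact hd.symm
  refine ⟨X, Y, hX, hY, ?_, hnd, hXY⟩
  have hsub : b.1 ⊆ (X.1 ∪ Y.1)ᶜ := by
    intro x hx
    simp only [mem_compl, mem_union, not_or]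
    exact ⟨fun h => Finset.disjoint_left.1 hXb h hx, fun h => Finset.disjoint_left.1 hYb h hx⟩
  have heq : b.1 = (X.1 ∪ Y.1)ᶜ := by
    by_contra hne
    have hss : b.1 ⊂ (X.1 ∪ Y.1)ᶜ := lt_of_le_of_ne hsub hne
    obtain ⟨x, hx, hxb⟩ := Finset.exists_of_ssubset hss
    obtain ⟨y, hy⟩ : b.1.Nonempty := Finset.card_pos.1 (by rw [b.2]; omega)
    have hcard : (insert x (b.1.erase y)).card = k := by
      rw [Finset.card_insert_of_notMem (fun h => hxb (Finset.mem_of_mem_erase h)),
        Finset.card_erase_of_mem hy, b.2]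
      omega
    have hsub2 : insert x (b.1.erase y) ⊆ (X.1 ∪ Y.1)ᶜ := by
      intro z hz
      rcases Finset.mem_insert.1 hz with rfl | hz
      · exact hx
      · exact hsub (Finset.mem_of_mem_erase hz)
    have h1 : (⟨insert x (b.1.erase y), hcard⟩ : Vtx n k) = b := by
      apply huniq
      · rw [mem_closedNbhd, adj_iff hk]
        right
        rw [Finset.disjoint_left]
        intro z hz hz2
        have := hsub2 hz2
        simp at this
        exact this.1 hz
      · rw [mem_closedNbhd, adj_iff hk]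
        right
        rw [Finset.disjoint_left]
        intro z hz hz2
        have := hsub2 hz2
        simp at this
        exact this.2 hz
    have h2 := congrArg Subtype.val h1
    simp only at h2
    apply hxb
    rw [← h2]
    exact Finset.mem_insert_self _ _
  rw [heq, compl_compl]

lemma kneser_forward (hk : 1 ≤ k) (hn : 2 * k ≤ n) {f : Vtx n k →₀ ℕ}
    (h : Witness (kneser n k) f) : 2 ≤ k ∧ n = 3 * k - 1 := by
  -- a vertex exists
  obtain ⟨v0s, _, hv0c⟩ := Finset.exists_subset_card_eq
    (s := (univ : Finset (Fin n))) (n := k) (by simp; omega)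
  obtain ⟨a, ha⟩ := w_exists h ⟨v0s, hv0c⟩
  have hfa : f a = 1 := w_supp h ha (by rw [mem_closedNbhd]; left; rfl)
  obtain ⟨X, Y, hX, hY, hun, hnd, hne⟩ := kneser_pair hk hn h hfa
  have hcompl : (a.1ᶜ).card = n - k := by
    rw [Finset.card_compl, Fintype.card_fin, a.2]
  have hcu : (X.1 ∪ Y.1).card + (X.1 ∩ Y.1).card = 2 * k := by
    rw [Finset.card_union_add_card_inter, X.2, Y.2]; ring
  rw [hun, hcompl] at hcu
  have hpos : 1 ≤ (X.1 ∩ Y.1).card := by
    rw [Nat.one_le_iff_ne_zero]
    intro h0
    apply hnd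
    rw [Finset.disjoint_iff_inter_eq_empty]
    exact Finset.card_eq_zero.1 h0
  have hlt : (X.1 ∩ Y.1).card < k := by
    rcases Nat.lt_or_ge (X.1 ∩ Y.1).card k with h | h
    · exact h
    · exfalso
      have h1 : X.1 ∩ Y.1 = X.1 := Finset.eq_of_subset_of_card_le Finset.inter_subset_left
        (by rw [X.2]; exact h)
      have h2 : X.1 ∩ Y.1 = Y.1 := Finset.eq_of_subset_of_card_le Finset.inter_subset_right
        (by rw [Y.2]; exact h)
      exact hne (Subtype.ext (h1.symm.trans h2))
  have hk2 : 2 ≤ k := by omega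
  refine ⟨hk2, ?_⟩
  by_contra hn3
  have ht : 2 ≤ (X.1 ∩ Y.1).card := by omega
  -- x ∈ X \ Y, c' ⊆ Y \ X
  have hXY : (X.1 \ Y.1).card = k - (X.1 ∩ Y.1).card := by
    have := Finset.card_sdiff_add_card_inter X.1 Y.1
    rw [X.2] at this; omega
  have hYX : (Y.1 \ X.1).card = k - (X.1 ∩ Y.1).card := by
    have := Finset.card_sdiff_add_card_inter Y.1 X.1
    rw [Y.2, Finset.inter_comm] at this; omega
  obtain ⟨x, hx⟩ : (X.1 \ Y.1).Nonempty := Finset.card_pos.1 (by omega)
  obtain ⟨c', hc', hc'c⟩ := Finset.exists_subset_card_eq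
    (s := Y.1 \ X.1) (n := n - 2 * k - 1) (by omega)
  rw [Finset.mem_sdiff] at hx
  have hxa : x ∉ a.1 := by
    have : x ∈ a.1ᶜ := by rw [← hun]; exact Finset.mem_union_left _ hx.1
    simpa using this
  have hc'a : ∀ z ∈ c', z ∉ a.1 := by
    intro z hz
    have : z ∈ a.1ᶜ := by
      rw [← hun]; exact Finset.mem_union_right _ (Finset.mem_sdiff.1 (hc' hz)).1
    simpa using this
  have hc'X : ∀ z ∈ c', z ∉ X.1 := fun z hz => (Finset.mem_sdiff.1 (hc' hz)).2
  have hxc' : x ∉ c' := fun h => (hc'X x h) hx.1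
  -- the vertex b'
  have hcard1 : (a.1 ∪ insert x c').card = n - k := by
    rw [Finset.card_union_of_disjoint, Finset.card_insert_of_notMem hxc', hc'c, a.2]
    · omega
    · rw [Finset.disjoint_left]
      intro z hz hz2
      rcases Finset.mem_insert.1 hz2 with rfl | h3
      · exact hxa hz
      · exact hc'a z h3 hz
  have hb'c : ((a.1 ∪ insert x c')ᶜ).card = k := by
    rw [Finset.card_compl, Fintype.card_fin, hcard1]; omega
  set b' : Vtx n k := ⟨(a.1 ∪ insert x c')ᶜ, hb'c⟩ with hb'
  have hfb' : f b' = 1 := by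
    apply w_supp h ha
    rw [mem_closedNbhd, adj_iff hk]
    right
    rw [Finset.disjoint_left]
    intro z hz hz2
    exact Finset.mem_compl.1 hz2 (Finset.mem_union_left _ hz)
  obtain ⟨P, Q, hP, hQ, hPQ, _, _⟩ := kneser_pair hk hn h hfb'
  have hPQ' : P.1 ∪ Q.1 = a.1 ∪ insert x c' := by rw [hPQ, hb']; simp
  -- general contradiction for a member containing x
  have key : ∀ P : Vtx n k, InA (kneser n k) f P → P.1 ⊆ a.1 ∪ insert x c' → x ∈ P.1 → False := by
    intro P hP hPs hxP
    have haX : ∀ z ∈ X.1, z ∉ a.1 := by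
      intro z hz
      have : z ∈ a.1ᶜ := by rw [← hun]; exact Finset.mem_union_left _ hz
      simpa using this
    have hint : P.1 ∩ X.1 = {x} := by
      ext z
      simp only [Finset.mem_inter, Finset.mem_singleton]
      constructor
      · rintro ⟨h1, h2⟩
        rcases Finset.mem_union.1 (hPs h1) with h3 | h3
        · exact absurd h3 (haX z h2)
        · rcases Finset.mem_insert.1 h3 with h4 | h4
          · exact h4
          · exact absurd h2 (hc'X z h4)
      · rintro rfl
        exact ⟨hxP, hx.1⟩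
    have hnd2 : ¬ Disjoint P.1 X.1 := by
      rw [Finset.disjoint_iff_inter_eq_empty, hint]; simp
    have hPX : P ≠ X := by
      rintro rfl
      rw [Finset.inter_self] at hint
      have := P.2
      rw [hint] at this
      simp at this
      omega
    obtain ⟨w, hw1, hw2⟩ := w_meet h hP hX
    rw [mem_closedNbhd, adj_iff hk] at hw1 hw2
    rcases hw1 with hw1 | hw1
    · rcases hw2 with hw2 | hw2
      · exact hPX (hw1.symm.trans hw2)
      · rw [hw1] at hw2; exact hnd2 hw2.symm
    · rcases hw2 with hw2 | hw2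
      · rw [hw2] at hw1; exact hnd2 hw1
      · have h5 : (P.1 ∪ X.1).card + 1 = 2 * k := by
          have := Finset.card_union_add_card_inter P.1 X.1
          rw [hint, P.2, X.2, Finset.card_singleton] at this
          omega
        have h6 : Disjoint (P.1 ∪ X.1) w.1 := by
          rw [Finset.disjoint_union_left]; exact ⟨hw1, hw2⟩
        have h7 : (P.1 ∪ X.1 ∪ w.1).card = (P.1 ∪ X.1).card + k := by
          rw [Finset.card_union_of_disjoint h6, w.2]
        have h8 : (P.1 ∪ X.1 ∪ w.1).card ≤ n := by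
          simpa using Finset.card_le_univ (P.1 ∪ X.1 ∪ w.1)
        omega
  have hxPQ : x ∈ P.1 ∪ Q.1 := by rw [hPQ']; simp
  rcases Finset.mem_union.1 hxPQ with h1 | h1
  · exact key P hP (by rw [← hPQ']; exact Finset.subset_union_left) h1
  · exact key Q hQ (by rw [← hPQ']; exact Finset.subset_union_right) h1

/-- For `n = 3k - 1` the all-ones exponent is a witness. -/
lemma kneser_backward (hk : 2 ≤ k) (hn : n = 3 * k - 1) :
    ∃ f, Witness (kneser n k) f := by
  have hk1 : 1 ≤ k := by omega
  have hself : ∀ Z : Vtx n k, Z ∈ closedNbhd (kneser n k) Z := fun Z => by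
    rw [mem_closedNbhd]; left; rfl
  set f : Vtx n k →₀ ℕ := Finsupp.equivFunOnFinite.symm (fun _ => 1) with hf
  have hf1 : ∀ v, f v = 1 := fun v => by simp [hf]
  refine ⟨f, ?_, ?_⟩
  · intro s t hle
    have : ∃ w, w ∈ closedNbhd (kneser n k) s ∧ w ∈ closedNbhd (kneser n k) t := by
      by_cases hst : s = t
      · exact ⟨s, hself s, by rw [← hst]; exact hself s⟩
      · by_cases hd : Disjoint s.1 t.1
        · refine ⟨s, hself s, ?_⟩
          rw [mem_closedNbhd, adj_iff hk1]; right; exact hd.symm
        · have hpos : 1 ≤ (s.1 ∩ t.1).card := by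
            rw [Nat.one_le_iff_ne_zero]
            intro h0
            exact hd (Finset.disjoint_iff_inter_eq_empty.2 (Finset.card_eq_zero.1 h0))
          have hcu := Finset.card_union_add_card_inter s.1 t.1
          rw [s.2, t.2] at hcu
          obtain ⟨w, h1, h2⟩ := exists_common (s := s) (t := t) (by omega)
          refine ⟨w, ?_, ?_⟩
          · rw [mem_closedNbhd, adj_iff hk1]; right; exact h1
          · rw [mem_closedNbhd, adj_iff hk1]; right; exact h2
    obtain ⟨w, hw1, hw2⟩ := this
    have h3 := hle w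
    simp only [Finsupp.coe_add, Pi.add_apply] at h3
    rw [nb_mem hw1, nb_mem hw2, hf1] at h3
    omega
  · intro v
    -- z in the complement, split the rest
    have hvc : (v.1ᶜ).card = 2 * k - 1 := by
      rw [Finset.card_compl, Fintype.card_fin, v.2]; omega
    obtain ⟨z, hz⟩ : (v.1ᶜ).Nonempty := Finset.card_pos.1 (by omega)
    have hrest : ((v.1ᶜ).erase z).card = 2 * k - 2 := by
      rw [Finset.card_erase_of_mem hz, hvc]; omega
    obtain ⟨P, hP, hPc⟩ := Finset.exists_subset_card_eq
      (s := (v.1ᶜ).erase z) (n := k - 1) (by omega)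
    have hzP : z ∉ P := fun h => by simpa using hP h
    have hQc : (((v.1ᶜ).erase z) \ P).card = k - 1 := by
      rw [Finset.card_sdiff_of_subset hP, hrest, hPc]; omega
    have hzQ : z ∉ ((v.1ᶜ).erase z) \ P := fun h => by simp at h
    have hXc : (insert z P).card = k := by
      rw [Finset.card_insert_of_notMem hzP, hPc]; omega
    have hYc : (insert z (((v.1ᶜ).erase z) \ P)).card = k := by
      rw [Finset.card_insert_of_notMem hzQ, hQc]; omega
    set X : Vtx n k := ⟨insert z P, hXc⟩ with hX
    set Y : Vtx n k := ⟨insert z (((v.1ᶜ).erase z) \ P), hYc⟩ with hY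
    have hzX : z ∈ X.1 := Finset.mem_insert_self _ _
    have hzY : z ∈ Y.1 := Finset.mem_insert_self _ _
    have hXY : ¬ Disjoint X.1 Y.1 := fun h => Finset.disjoint_left.1 h hzX hzY
    have hXneY : X ≠ Y := by
      intro h
      obtain ⟨p, hp⟩ : P.Nonempty := Finset.card_pos.1 (by omega)
      have h1 : p ∈ X.1 := Finset.mem_insert_of_mem hp
      rw [h] at h1
      rcases Finset.mem_insert.1 h1 with h2 | h2
      · exact hzP (h2 ▸ hp)
      · exact (Finset.mem_sdiff.1 h2).2 hp
    have hunion : ∀ w : Vtx n k, Disjoint X.1 w.1 → Disjoint Y.1 w.1 → w = v := by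
      intro w h1 h2
      apply Subtype.ext
      apply Finset.eq_of_subset_of_card_le
      · intro q hq
        by_contra hqv
        by_cases hqz : q = z
        · subst hqz; exact Finset.disjoint_left.1 h1 hzX hq
        · by_cases hqP : q ∈ P
          · exact Finset.disjoint_left.1 h1 (Finset.mem_insert_of_mem hqP) hq
          · refine Finset.disjoint_left.1 h2 (Finset.mem_insert_of_mem ?_) hq
            simp only [Finset.mem_sdiff, Finset.mem_erase, Finset.mem_compl]
            exact ⟨⟨hqz, hqv⟩, hqP⟩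
      · rw [w.2, v.2]
    refine ⟨X, Y, ?_⟩
    intro w
    simp only [Finsupp.coe_add, Pi.add_apply, hf1]
    by_cases hw : w = v
    · subst hw
      have h1 := nb_le_one (kneser n k) X w
      have h2 := nb_le_one (kneser n k) Y w
      simp only [Finsupp.single_eq_same]
      omega
    · have : w ∉ closedNbhd (kneser n k) X ∨ w ∉ closedNbhd (kneser n k) Y := by
        by_contra hcon
        push Not at hcon
        obtain ⟨h1, h2⟩ := hcon
        rw [mem_closedNbhd, adj_iff hk1] at h1 h2
        rcases h1 with h1 | h1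
        · rcases h2 with h2 | h2
          · exact hXneY (h1.symm.trans h2)
          · rw [h1] at h2; exact hXY h2.symm
        · rcases h2 with h2 | h2
          · rw [h2] at h1; exact hXY h1
          · exact hw (hunion w h1 h2)
      have h1 := nb_le_one (kneser n k) X w
      have h2 := nb_le_one (kneser n k) Y w
      rcases this with h3 | h3
      · rw [nb_notMem h3]; omega
      · rw [nb_notMem h3]; omega

/-- For `n < 2k` there are no edges. -/
lemma kneser_small (hk : k < n) (hn : n < 2 * k) : ∃ f, Witness (kneser n k) f := by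
  have hk1 : 1 ≤ k := by omega
  have hnb : ∀ s : Vtx n k, closedNbhd (kneser n k) s = {s} := by
    intro s
    ext t
    rw [mem_closedNbhd, Finset.mem_singleton, adj_iff hk1]
    constructor
    · rintro (h | h)
      · exact h
      · exfalso
        have h7 : (s.1 ∪ t.1).card = k + k := by
          rw [Finset.card_union_of_disjoint h, s.2, t.2]
        have h8 : (s.1 ∪ t.1).card ≤ n := by
          simpa using Finset.card_le_univ (s.1 ∪ t.1)
        omega
    · intro h; left; exact h
  have hnb' : ∀ s : Vtx n k, nb (kneser n k) s = Finsupp.single s 1 := by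
    intro s
    rw [nb, hnb, Finset.sum_singleton]
  obtain ⟨v0s, _, hv0c⟩ := Finset.exists_subset_card_eq
    (s := (univ : Finset (Fin n))) (n := k) (by simp; omega)
  refine ⟨Finsupp.single ⟨v0s, hv0c⟩ 1, ?_, ?_⟩
  · intro i j hle
    rw [hnb', hnb'] at hle
    have h1 := Finsupp.degree_mono hle
    simp at h1
  · intro v
    refine ⟨⟨v0s, hv0c⟩, v, ?_⟩
    rw [hnb', hnb']

end

/-- **MP_a8e883_al, Q1.**  Complete answer for all `0 < k < n`, over every field `K`.
(a) If `n ≥ 2k`, the maximal homogeneous ideal is an associated prime of `S/NI(K(n,k))²` if and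
only if `k ≥ 2` and `n = 3k - 1`.
(b) If `k < n < 2k` (then `K(n,k)` has no edges and `NI(K(n,k))` is the maximal ideal itself), it
is an associated prime for the trivial reason. -/
theorem result (K : Type*) [Field K] (n k : ℕ) (hk : 1 ≤ k) (hkn : k < n) :
    (2 * k ≤ n → (IsAssocPrime (maxIdeal K {s : Finset (Fin n) // s.card = k})
        (NI K (kneser n k) ^ 2) ↔ 2 ≤ k ∧ n = 3 * k - 1)) ∧
    (n < 2 * k → IsAssocPrime (maxIdeal K {s : Finset (Fin n) // s.card = k})
        (NI K (kneser n k) ^ 2)) := by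
  constructor
  · intro hn
    rw [assoc_iff]
    constructor
    · rintro ⟨f, hf⟩
      exact kneser_forward hk hn hf
    · rintro ⟨h1, h2⟩
      exact kneser_backward h1 h2
  · intro hn
    rw [assoc_iff]
    exact kneser_small hkn hn

end Pool.Agent.Results.MP_a8e883_al.KneserSquare
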